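import Pool.Agent.Helper50.AS.Grp
import Pool.Agent.Helper50.AS.Big
import Pool.Agent.Helper94.AS.Sylow

/-!
# Every extension is realised over the prime field

`L = k(x, w)` with `x` transcendental over `k`, `w ^ p - w = f (x)` and `w ∉ k(x)` is the function
field of the curve `C_f`, and `σ` is the generator `(x, w) ↦ (x, w + 1)` of its Artin-Schreier
group.
-/

set_option autoImplicit false

open Polynomial

namespace Pool.Agent.Helper49.ASCore

open Pool.Agent.Helper94.AS

theorem core (p : ℕ) [Fact p.Prime] (k : Type) [Field k] [IsAlgClosed k] [CharP k p]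
    (n : ℕ) (G : Type) [Group G] (N : Subgroup G) [N.Normal]
    (h1 : Nonempty (N ≃* Multiplicative (ZMod p)))
    (h2 : Nonempty (G ⧸ N ≃* Multiplicative (Fin n → ZMod p))) :
    ∃ f : (ZMod p)[X], ¬ p ∣ (f.map (ZMod.castHom (dvd_refl p) k)).natDegree ∧
      Irreducible (asPoly p (f.map (ZMod.castHom (dvd_refl p) k))) ∧
      ∃ Q : Sylow p (FF p (f.map (ZMod.castHom (dvd_refl p) k)) ≃ₐ[k]
          FF p (f.map (ZMod.castHom (dvd_refl p) k))),
        ∃ e : G ≃* (Q : Subgroup (FF p (f.map (ZMod.castHom (dvd_refl p) k)) ≃ₐ[k]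
            FF p (f.map (ZMod.castHom (dvd_refl p) k)))),
          ∀ g : G, g ∈ N ↔ ∀ r : RatFunc k,
            (e g).1 (AdjoinRoot.of (asPoly p (f.map (ZMod.castHom (dvd_refl p) k))) r) =
              AdjoinRoot.of (asPoly p (f.map (ZMod.castHom (dvd_refl p) k))) r := by
  classical
  obtain ⟨E, hN⟩ := Pool.Agent.Helper50.AS.exists_ext p n G N h1 h2
  have hfin : Finite G := by
    obtain ⟨e1⟩ := h1
    obtain ⟨e2⟩ := h2
    have : Finite N := Finite.of_equiv _ e1.symm.toEquiv
    have : Finite (G ⧸ N) := Finite.of_equiv _ e2.symm.toEquiv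
    exact Finite.of_equiv _ (Subgroup.groupEquivQuotientProdSubgroup (s := N)).symm
  obtain ⟨ι, φ, hι, hF, hφz⟩ := E.exists_frob k
  set c := ZMod.castHom (dvd_refl p) k with hc
  have hιm : ∀ g h, ι (E.π (g * h)) = ι (E.π g) + ι (E.π h) := by
    intro g h
    rw [E.hπ, map_add]
  have hι0 : ∀ g, ι (E.π g) = 0 ↔ E.π g = 0 := fun g => map_eq_zero_iff ι hι
  obtain ⟨P, hP, hPz⟩ := Pool.Agent.Helper50.AS.exists_cocycle (k := k) (G := G)
    (c : ZMod p →+ k) (fun g => ι (E.π g)) hιm E.ζ
    (fun x y hx hy => E.hζ x y ((hι0 x).1 hx) ((hι0 y).1 hy))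
    (fun g z hz => by
      rw [mul_assoc, E.hcent z g ((hι0 z).1 hz), inv_mul_cancel_left])
  obtain ⟨f₀, P', hP', hP'z, hP'f⟩ := Pool.Agent.Helper50.AS.exists_descent p
    (fun g => ι (E.π g)) hιm φ hF (fun z hz => hφz z ((hι0 z).1 hz)) P hP
    (fun z hz => ⟨E.ζ z, hPz z hz⟩)
  obtain ⟨f₁, Q, hQ, hQz, hQf, hdeg, hbig, hst⟩ := Pool.Agent.Helper50.AS.exists_big p
    (fun g => ι (E.π g)) hιm (fun g => ⟨φ g, hF g⟩) f₀ P' hP' hP'f
  have hQN : ∀ z, ι (E.π z) = 0 → Q z = Polynomial.C (c (E.ζ z)) := by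
    intro z hz
    rw [hQz z hz, hP'z z hz, hPz z hz]
    rfl
  refine ⟨f₁, hdeg, sylow_of_data p k G N (f₁.map c) hdeg hbig
    (fun g => ι (E.π g)) Q hιm (fun g => ?_) hQ hQf ?_ ?_ hst⟩
  · rw [← hN g]; exact hι0 g
  · obtain ⟨z, hz, hz1⟩ := E.hζs
    refine ⟨z, (hN z).1 hz, ?_⟩
    rw [hQN z ((hι0 z).2 hz), hz1, map_one, Polynomial.C_1]
  · intro z hzN hz
    have hz0 := (hN z).2 hzN
    rw [hQN z ((hι0 z).2 hz0), Polynomial.C_eq_zero] at hz
    have h3 : E.ζ z = 0 := (map_eq_zero_iff c c.injective).1 hz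
    exact E.hinj z hz0 h3

section Field

variable {p : ℕ} [hp : Fact p.Prime] {k : Type} [Field k] [CharP k p] (f : k[X])
  [hirr : Fact (Irreducible (asPoly p f))]

theorem x_transcendental : Transcendental k (xx f : FF p f) := by
  rw [transcendental_iff_injective]
  intro a b hab
  apply algMap_poly_inj (p := p) f
  rw [algMap_eq_aeval, algMap_eq_aeval]
  exact hab

theorem adjoin_top : IntermediateField.adjoin k {(xx f : FF p f), WW f} = ⊤ := by
  rw [eq_top_iff]
  have hx : (xx f : FF p f) ∈ IntermediateField.adjoin k {(xx f : FF p f), WW f} :=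
    IntermediateField.subset_adjoin _ _ (by simp)
  have hw : (WW f : FF p f) ∈ IntermediateField.adjoin k {(xx f : FF p f), WW f} :=
    IntermediateField.subset_adjoin _ _ (by simp)
  have hpoly : ∀ a : k[X], algebraMap k[X] (FF p f) a ∈
      IntermediateField.adjoin k {(xx f : FF p f), WW f} := by
    intro a
    rw [algMap_eq_aeval, aeval_eq_sum_range]
    refine sum_mem fun i _ => ?_
    rw [Algebra.smul_def]
    exact mul_mem (IntermediateField.algebraMap_mem _ _) (pow_mem hx _)
  have hrat : ∀ r : RatFunc k, algebraMap (RatFunc k) (FF p f) r ∈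
      IntermediateField.adjoin k {(xx f : FF p f), WW f} := by
    intro r
    rw [← RatFunc.num_div_denom r, map_div₀, ← algMap_poly, ← algMap_poly]
    exact div_mem (hpoly _) (hpoly _)
  intro u _
  obtain ⟨c, -, rfl⟩ := exists_mk f u
  rw [← AdjoinRoot.aeval_eq, aeval_eq_sum_range]
  refine sum_mem fun i _ => ?_
  rw [Algebra.smul_def]
  exact mul_mem (hrat _) (pow_mem hw _)

theorem w_not_mem (hdeg : ¬ p ∣ f.natDegree) :
    (WW f : FF p f) ∉ IntermediateField.adjoin k {(xx f : FF p f)} := by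
  intro h
  have hle : IntermediateField.adjoin k {(xx f : FF p f)} ≤
      (IsScalarTower.toAlgHom k (RatFunc k) (FF p f)).fieldRange := by
    rw [IntermediateField.adjoin_le_iff]
    rintro _ rfl
    exact ⟨algebraMap k[X] (RatFunc k) X, (algMap_poly f X).symm⟩
  obtain ⟨r, hr⟩ := hle h
  have hr' : algebraMap (RatFunc k) (FF p f) r = WW f := hr
  apply no_root (p := p) f hdeg r
  apply algMap_inj (p := p) f
  rw [map_sub, map_pow, hr', WW_eq, algMap_poly]

end Field

theorem main (p : ℕ) [Fact p.Prime] (k : Type) [Field k] [IsAlgClosed k] [CharP k p]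
    (n : ℕ) (G : Type) [Group G] (K : Subgroup G) [K.Normal]
    (hK : Nonempty (K ≃* Multiplicative (ZMod p)))
    (hG : Nonempty (G ⧸ K ≃* Multiplicative (Fin n → ZMod p))) :
    ∃ f : (ZMod p)[X], ¬ p ∣ (f.map (ZMod.castHom (dvd_refl p) k)).natDegree ∧
      Irreducible (asPoly p (f.map (ZMod.castHom (dvd_refl p) k))) ∧
      ∃ (S : Sylow p (FF p (f.map (ZMod.castHom (dvd_refl p) k)) ≃ₐ[k]
          FF p (f.map (ZMod.castHom (dvd_refl p) k)))) (σ : S),
        (∀ r : RatFunc k, σ.1 (AdjoinRoot.of (asPoly p (f.map (ZMod.castHom (dvd_refl p) k))) r) =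
          AdjoinRoot.of (asPoly p (f.map (ZMod.castHom (dvd_refl p) k))) r) ∧
        σ.1 (AdjoinRoot.root (asPoly p (f.map (ZMod.castHom (dvd_refl p) k)))) =
          AdjoinRoot.root (asPoly p (f.map (ZMod.castHom (dvd_refl p) k))) + 1 ∧
        ∃ e : S ≃* G, (Subgroup.zpowers σ).map e.toMonoidHom = K := by
  obtain ⟨f₀, hdeg, hirr, Q, e, he⟩ := core p k n G K hK hG
  refine ⟨f₀, hdeg, hirr, ?_⟩
  generalize f₀.map (ZMod.castHom (dvd_refl p) k) = f at *
  have : Fact (Irreducible (asPoly p f)) := ⟨hirr⟩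
  have hchar : CharP (FF p f) p := charP_of_injective_algebraMap (algebraMap k _).injective p
  · -- an element of `K` which is not `1`
    obtain ⟨e1⟩ := hK
    have hcard : Nat.card K = p := by
      rw [Nat.card_congr e1.toEquiv]
      simp
    obtain ⟨g0, hg0⟩ : ∃ g : K, g ≠ 1 := by
      have hnt : Nontrivial K := by
        have : Finite K := Nat.finite_of_card_ne_zero (by rw [hcard]; exact (Fact.out : p.Prime).ne_zero)
        rw [← Finite.one_lt_card_iff_nontrivial, hcard]
        exact (Fact.out : p.Prime).one_lt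
      exact exists_ne 1
    have hfix := (he g0.1).1 g0.2
    obtain ⟨τ, hτ⟩ : ∃ τ : FF p f ≃ₐ[k] FF p f, τ = (e g0.1).1 := ⟨_, rfl⟩
    have hτr : ∀ r : RatFunc k, τ (algebraMap (RatFunc k) (FF p f) r) =
        algebraMap (RatFunc k) (FF p f) r := by
      intro r
      rw [hτ]
      exact hfix r
    have hτp : ∀ a : k[X], τ (algebraMap k[X] (FF p f) a) = algebraMap k[X] (FF p f) a := by
      intro a
      rw [algMap_poly]
      exact hτr _
    have hroot : (τ (WW f) - WW f) ^ p = τ (WW f) - WW f := by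
      rw [sub_pow_char, ← map_pow]
      have h1 := WW_eq (p := p) f
      have h2 : (WW f : FF p f) ^ p = WW f + algebraMap k[X] (FF p f) f := by
        linear_combination h1
      rw [h2, map_add, hτp]
      ring
    obtain ⟨j, hj⟩ := exists_nat_of_pow_eq (p := p) hroot
    have hτ1 : τ ≠ 1 := by
      intro h
      apply hg0
      have h3 : e g0.1 = 1 := Subtype.ext (by rw [← hτ, h]; rfl)
      have h4 : g0.1 = 1 := e.injective (by rw [h3, map_one])
      exact Subtype.ext h4
    have hj0 : ((j : ℕ) : FF p f) ≠ 0 := by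
      intro h
      apply hτ1
      have h5 : ((τ : FF p f ≃ₐ[k] FF p f) : FF p f →ₐ[k] FF p f) =
          ((1 : FF p f ≃ₐ[k] FF p f) : FF p f →ₐ[k] FF p f) := by
        apply hom_ext f
        · exact hτp X
        · have h6 : τ (WW f) = WW f := by
            rw [h] at hj
            exact (sub_eq_zero.1 hj.symm)
          exact h6
      ext u
      exact congrArg (fun χ : FF p f →ₐ[k] FF p f => χ u) h5
    -- powers of `τ`
    have hpow : ∀ m : ℕ, (τ ^ m) (WW f) = WW f + ((m * j : ℕ) : FF p f) := by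
      intro m
      induction m with
      | zero => simp
      | succ m ih =>
        have h7 : τ (WW f) = WW f + (j : FF p f) := by
          rw [hj]
          ring
        rw [pow_succ, AlgEquiv.mul_apply, h7, map_add, ih, map_natCast]
        push_cast
        ring
    have hpowx : ∀ (m : ℕ) (r : RatFunc k), (τ ^ m) (algebraMap (RatFunc k) (FF p f) r) =
        algebraMap (RatFunc k) (FF p f) r := by
      intro m r
      induction m with
      | zero => rfl
      | succ m ih => rw [pow_succ, AlgEquiv.mul_apply, hτr, ih]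
    obtain ⟨m, hm⟩ : ∃ m : ℕ, ((m * j : ℕ) : FF p f) = 1 := by
      have hcop : Nat.Coprime j p := by
        rw [Nat.coprime_comm, Nat.Prime.coprime_iff_not_dvd Fact.out]
        intro hd
        exact hj0 ((CharP.cast_eq_zero_iff (FF p f) p j).2 hd)
      obtain ⟨m, -, hm⟩ := Nat.exists_mul_mod_eq_one_of_coprime hcop (Fact.out : p.Prime).one_lt
      refine ⟨m, ?_⟩
      rw [mul_comm m j]
      have h8 : ((j * m : ℕ) : FF p f) = ((j * m % p : ℕ) : FF p f) := by
        rw [CharP.cast_eq_mod (FF p f) p (j * m)]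
      rw [h8, hm, Nat.cast_one]
    refine ⟨Q, (e g0.1) ^ m, ?_, ?_, e.symm, ?_⟩
    · intro r
      show (((e g0.1) ^ m : Q) : FF p f ≃ₐ[k] FF p f) (algebraMap (RatFunc k) (FF p f) r) =
        algebraMap (RatFunc k) (FF p f) r
      rw [Subgroup.coe_pow, ← hτ]
      exact hpowx m r
    · show (((e g0.1) ^ m : Q) : FF p f ≃ₐ[k] FF p f) (WW f) = WW f + 1
      rw [Subgroup.coe_pow, ← hτ, hpow, hm]
    · have hg1 : (g0 : K) ^ m ≠ 1 := by
        intro h
        have h9 : (e g0.1) ^ m = 1 := by
          rw [← map_pow]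
          have : (g0.1 : G) ^ m = 1 := by
            have := congrArg Subtype.val h
            simpa using this
          rw [this, map_one]
        have h10 : τ ^ m = 1 := by
          rw [hτ, ← Subgroup.coe_pow, h9]
          rfl
        have h11 := hpow m
        rw [h10, hm] at h11
        have h12 : (WW f : FF p f) = WW f + 1 := h11
        exact one_ne_zero (by linear_combination -h12 : (1 : FF p f) = 0)
      have htop : Subgroup.zpowers ((g0 : K) ^ m) = ⊤ := zpowers_eq_top_of_prime_card hcard hg1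
      have h13 : e.symm ((e g0.1) ^ m) = ((g0 ^ m : K) : G) := by
        rw [← map_pow, MulEquiv.symm_apply_apply]
        rfl
      rw [MonoidHom.map_zpowers]
      show Subgroup.zpowers (e.symm ((e g0.1) ^ m)) = K
      rw [h13]
      have h14 := congrArg (Subgroup.map K.subtype) htop
      rw [MonoidHom.map_zpowers, ← MonoidHom.range_eq_map, Subgroup.range_subtype] at h14
      exact h14

end Pool.Agent.Helper49.ASCore
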