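import Pool.Agent.Helper71.Sum.Final

/-!
# `c₀(ℕ)` and the space of the counterexample

`Q : c₀(ℕ) → (c₀(ℕ × ℕ) × c₀(ℕ × ℕ)) × ℝ` and its inverse `jj`.
-/

set_option autoImplicit false

open scoped ZeroAtInfty Topology
open Filter

namespace Pool.Agent.Helper49.SumC0

open Pool.Agent.Helper71.Sum

/-- the index set -/
abbrev J := Option (I ⊕ I)

noncomputable def en : J ≃ ℕ := Denumerable.eqv J

/-- functions tending to zero along `cofinite` as elements of `c_0` -/
noncomputable def mkN (f : ℕ → ℝ) (hf : Tendsto f cofinite (𝓝 0)) : C₀(ℕ, ℝ) :=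
  ⟨⟨f, continuous_of_discreteTopology⟩, by
    rw [Filter.cocompact_eq_cofinite]; exact hf⟩

@[simp] lemma mkN_apply (f : ℕ → ℝ) (hf : Tendsto f cofinite (𝓝 0)) (i : ℕ) :
    mkN f hf i = f i := rfl

lemma tendsto_N (f : C₀(ℕ, ℝ)) : Tendsto f cofinite (𝓝 0) := by
  have h := zero_at_infty f
  rwa [Filter.cocompact_eq_cofinite] at h

lemma abs_apply_le_N (f : C₀(ℕ, ℝ)) (i : ℕ) : |f i| ≤ ‖f‖ := by
  have h := f.toBCF.norm_coe_le_norm i
  rwa [ZeroAtInftyContinuousMap.norm_toBCF_eq_norm, Real.norm_eq_abs] at h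

lemma norm_le_N (f : C₀(ℕ, ℝ)) {r : ℝ} (hr : 0 ≤ r) (h : ∀ i, |f i| ≤ r) : ‖f‖ ≤ r := by
  rw [← ZeroAtInftyContinuousMap.norm_toBCF_eq_norm]
  exact (BoundedContinuousFunction.norm_le hr).2 fun i => by
    rw [Real.norm_eq_abs]; exact h i

/-- restriction along an injective map -/
noncomputable def res (s : I → ℕ) (hs : Function.Injective s) : C₀(ℕ, ℝ) →L[ℝ] C :=
  LinearMap.mkContinuous
    { toFun := fun f => mkC (fun i => f (s i)) ((tendsto_N f).comp hs.tendsto_cofinite)
      map_add' := fun f g => by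
        ext i
        simp
      map_smul' := fun c f => by
        ext i
        simp }
    1 (fun f => by
      rw [one_mul]
      exact norm_le_C _ (norm_nonneg _) fun i => by
        simpa using abs_apply_le_N f (s i))

@[simp] lemma res_apply (s : I → ℕ) (hs : Function.Injective s) (f : C₀(ℕ, ℝ)) (i : I) :
    res s hs f i = f (s i) := rfl

/-- evaluation -/
noncomputable def evN (n : ℕ) : C₀(ℕ, ℝ) →L[ℝ] ℝ :=
  LinearMap.mkContinuous
    { toFun := fun f => f n
      map_add' := fun _ _ => rfl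
      map_smul' := fun _ _ => rfl }
    1 (fun f => by
      rw [one_mul]
      exact abs_apply_le_N f n)

@[simp] lemma evN_apply (n : ℕ) (f : C₀(ℕ, ℝ)) : evN n f = f n := rfl

def s1 (i : I) : J := some (Sum.inl i)
def s2 (i : I) : J := some (Sum.inr i)

lemma s1_inj : Function.Injective fun i => en (s1 i) := by
  intro a b h
  have h1 := en.injective h
  exact Sum.inl_injective (Option.some_injective _ h1)

lemma s2_inj : Function.Injective fun i => en (s2 i) := by
  intro a b h
  have h1 := en.injective h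
  exact Sum.inr_injective (Option.some_injective _ h1)

/-- from `c₀(ℕ)` to the space of the counterexample -/
noncomputable def Q : C₀(ℕ, ℝ) →L[ℝ] X :=
  ((res _ s1_inj).prod (res _ s2_inj)).prod (evN (en none))

/-- the function of a point of the space -/
def Fx (x : X) : J → ℝ
  | none => x.2
  | some (Sum.inl i) => x.1.1 i
  | some (Sum.inr i) => x.1.2 i

lemma Fx_abs (x : X) (k : J) : |Fx x k| ≤ ‖x‖ := by
  rcases k with _ | (i | i)
  · show |x.2| ≤ ‖x‖
    rw [← Real.norm_eq_abs]
    exact norm_snd_le x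
  · show |x.1.1 i| ≤ ‖x‖
    exact (abs_apply_le _ _).trans ((norm_fst_le x.1).trans (norm_fst_le x))
  · show |x.1.2 i| ≤ ‖x‖
    exact (abs_apply_le _ _).trans ((norm_snd_le x.1).trans (norm_fst_le x))

lemma Fx_tendsto (x : X) : Tendsto (Fx x) cofinite (𝓝 0) := by
  rw [Metric.tendsto_nhds]
  intro ε hε
  rw [Filter.eventually_cofinite]
  have h1 : {i : I | ¬ dist (x.1.1 i) 0 < ε}.Finite :=
    Filter.eventually_cofinite.1 ((Metric.tendsto_nhds.1 (tendsto_C x.1.1)) ε hε)
  have h2 : {i : I | ¬ dist (x.1.2 i) 0 < ε}.Finite :=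
    Filter.eventually_cofinite.1 ((Metric.tendsto_nhds.1 (tendsto_C x.1.2)) ε hε)
  refine (((Set.finite_singleton (none : J)).union (h1.image s1)).union (h2.image s2)).subset ?_
  rintro (_ | (i | i)) hk
  · left; left; rfl
  · left; right
    exact ⟨i, hk, rfl⟩
  · right
    exact ⟨i, hk, rfl⟩

/-- the inverse map -/
noncomputable def jj : X →L[ℝ] C₀(ℕ, ℝ) :=
  LinearMap.mkContinuous
    { toFun := fun x => mkN (fun n => Fx x (en.symm n))
        ((Fx_tendsto x).comp en.symm.injective.tendsto_cofinite)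
      map_add' := fun x y => by
        ext n
        show Fx (x + y) (en.symm n) = Fx x (en.symm n) + Fx y (en.symm n)
        rcases en.symm n with _ | (i | i) <;> rfl
      map_smul' := fun c x => by
        ext n
        show Fx (c • x) (en.symm n) = c * Fx x (en.symm n)
        rcases en.symm n with _ | (i | i) <;> rfl }
    1 (fun x => by
      rw [one_mul]
      exact norm_le_N _ (norm_nonneg _) fun n => Fx_abs x _)

lemma jj_apply (x : X) (n : ℕ) : jj x n = Fx x (en.symm n) := rfl

theorem Q_jj (x : X) : Q (jj x) = x := by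
  refine Prod.ext (Prod.ext ?_ ?_) ?_
  · ext i
    show jj x (en (s1 i)) = x.1.1 i
    rw [jj_apply, Equiv.symm_apply_apply]
    rfl
  · ext i
    show jj x (en (s2 i)) = x.1.2 i
    rw [jj_apply, Equiv.symm_apply_apply]
    rfl
  · show jj x (en none) = x.2
    rw [jj_apply, Equiv.symm_apply_apply]
    rfl

end Pool.Agent.Helper49.SumC0
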